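import Pool.Agent.Helper85.LN2.Fr
import Pool.Agent.Helper61.LN.VNFP

/-!
# VFP: finitely generated virtually free groups are finitely presented (project LN2)
-/

namespace Pool.Agent.Helper5.LN2

/-- The basis of a finitely generated free group is finite. -/
theorem finite_of_fg (ι : Type*) (h : Group.FG (FreeGroup ι)) : Finite ι := by
  classical
  obtain ⟨X, hX, hXf⟩ := Group.fg_iff.1 h
  let T : Set ι := ⋃ x ∈ X, {i | i ∈ (FreeGroup.toWord x).map Prod.fst}
  have hT : T.Finite := hXf.biUnion fun x _ => List.finite_toSet _
  have hall : ∀ i, i ∈ T := by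
    intro i
    by_contra hi
    let φ : FreeGroup ι →* Multiplicative ℤ :=
      FreeGroup.lift fun j => if j = i then Multiplicative.ofAdd 1 else 1
    have hφ : φ = 1 := by
      refine MonoidHom.eq_of_eqOn_dense hX ?_
      intro x hx
      have hx1 : ∀ p ∈ FreeGroup.toWord x, p.1 ≠ i := by
        intro p hp hpi
        apply hi
        simp only [T, Set.mem_iUnion]
        exact ⟨x, hx, List.mem_map.2 ⟨p, hp, hpi⟩⟩
      have : φ x = 1 := by
        rw [← FreeGroup.mk_toWord (x := x)]
        change FreeGroup.lift _ (FreeGroup.mk _) = 1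
        rw [FreeGroup.lift_mk]
        refine List.prod_eq_one fun y hy => ?_
        obtain ⟨p, hp, rfl⟩ := List.mem_map.1 hy
        rw [if_neg (hx1 p hp)]
        cases p.2 <;> simp
      rw [this]
      rfl
    have h1 : φ (FreeGroup.of i) = Multiplicative.ofAdd 1 := by
      simp [φ]
    rw [hφ] at h1
    have h2 : (0 : ℤ) = 1 := congrArg Multiplicative.toAdd h1
    norm_num at h2
  have huniv : (Set.univ : Set ι).Finite := hT.subset fun i _ => hall i
  exact Set.finite_univ_iff.1 huniv

/-- A finitely generated free group is finitely presented. -/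
theorem fp_of_free (N : Type*) [Group N] [IsFreeGroup N] (h : Group.FG N) :
    Group.IsFinitelyPresented N := by
  obtain ⟨ι, ⟨b⟩⟩ := IsFreeGroup.nonempty_basis (G := N)
  have h1 : Group.FG (FreeGroup ι) := by
    haveI := h
    exact Group.fg_of_surjective (f := b.repr.toMonoidHom) b.repr.surjective
  haveI := finite_of_fg ι h1
  exact Group.IsFinitelyPresented.equiv b.repr.symm

theorem vfp : Pool.Agent.Helper85.LN2.S_VFP := by
  intro G _ P hG hP hfree
  haveI : P.FiniteIndex := ⟨hP⟩
  have h1 : Group.FG P.normalCore := inferInstance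
  haveI h2 : IsFreeGroup P.normalCore :=
    IsFreeGroup.ofMulEquiv (Subgroup.subgroupOfEquivOfLe P.normalCore_le)
  have h3 : Group.IsFinitelyPresented P.normalCore := fp_of_free _ h1
  have h4 : Finite (G ⧸ P.normalCore) := inferInstance
  have h5 : Group.IsFinitelyPresented (QuotientGroup.mk' P.normalCore).ker :=
    Group.IsFinitelyPresented.equiv
      (MulEquiv.subgroupCongr (QuotientGroup.ker_mk' P.normalCore).symm)
  exact Pool.Agent.Helper61.LN.ext_fp (QuotientGroup.mk' P.normalCore)
    (QuotientGroup.mk'_surjective _) h5 inferInstance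

end Pool.Agent.Helper5.LN2
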